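import Mathlib
import Pool.Agent.TH140.KT.Cross
import Pool.Agent.TH140.KT.Small

/-!
# Three-dimensional tensors: analytic rank does not tensorize, over any prime field

The starting files disprove the tensorization statement in all dimensions `d ≥ 4`.  Here: in
dimension `3` it fails for the analytic rank over every prime field `F_p`.

* `p ≥ 5`: the Levi-Civita tensor of side `3` (the vector product) has more zeros than the identity
  tensor, because `p^4 + p^3 - p > (2p - 1)^3`, and its powers contain diagonals of size
  `3^(m(1 - o(1)))` (hashing into a set without three-term progressions).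
* `p = 2, 3`: a direct sum of copies of the Levi-Civita tensor and of a zero tensor has analytic
  rank below the identity tensor, while its square has analytic rank at least that of the square
  of the identity tensor; this is a count of the pairs of `3 × 3` matrices `x, y` with
  `x_i × y_j = x_j × y_i` for all `i, j`.
-/

set_option autoImplicit false

namespace Pool.Agent.Results.MP_a9d09b_co.ThreeTensorsAnalytic

open Pool.Agent.H277R2.Tens

/-- For every prime `p` there are `n ≥ 1` (with `n = 3` if `p ≥ 5`) and a three-dimensional tensor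
`A` over `F_p` of side `n` with `arank A < arank Id` such that for every `c < 1` some `m ≥ 1` has
`arank (A^{⊗m}) ≥ c^m arank (Id^{⊗m})`. -/
theorem result : ∀ (p : ℕ) [Fact p.Prime], ∃ (n : ℕ) (A : Tensor (ZMod p) 3 (Fin n)),
    1 ≤ n ∧ (5 ≤ p → n = 3) ∧
    arank A < arank (idT : Tensor (ZMod p) 3 (Fin n)) ∧
    ∀ c : ℝ, c < 1 → ∃ m : ℕ, 1 ≤ m ∧
      c ^ m * arank (tpow (idT : Tensor (ZMod p) 3 (Fin n)) m) ≤ arank (tpow A m) := by
  intro p hpp
  rcases le_or_gt 5 p with hp | hp
  · exact ⟨3, Pool.Agent.TH140.KT.lc p, by norm_num, fun _ => rfl,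
      Pool.Agent.TH140.KT.arank_lc_lt hp, fun c hc => Pool.Agent.TH140.KT.main3 hp hc⟩
  · have h3 : ∃ (n : ℕ) (A : Tensor (ZMod p) 3 (Fin n)),
        arank A < arank (idT : Tensor (ZMod p) 3 (Fin n)) ∧
        arank (tpow (idT : Tensor (ZMod p) 3 (Fin n)) 2) ≤ arank (tpow A 2) := by
      have hge := hpp.out.two_le
      have h234 : p = 2 ∨ p = 3 ∨ p = 4 := by omega
      rcases h234 with rfl | rfl | rfl
      · exact Pool.Agent.TH140.KT.case_two
      · exact Pool.Agent.TH140.KT.case_three
      · exact absurd hpp.out (by norm_num)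
    obtain ⟨n, A, h, h'⟩ := h3
    refine ⟨n, A, ?_, fun h5 => absurd h5 (not_le.2 hp), h, ?_⟩
    · rcases Nat.eq_zero_or_pos n with hn | hn
      · subst hn
        exfalso
        have e1 := arank_idT (p := p) 2 (κ := Fin 0)
        rw [Fintype.card_fin, Nat.cast_zero, zero_mul] at e1
        rw [e1] at h
        exact absurd (arank_nonneg (d := 2) A) (not_le.2 h)
      · exact hn
    · intro c hc
      have i1 : 0 ≤ arank (tpow (idT : Tensor (ZMod p) 3 (Fin n)) 1) := arank_nonneg (d := 2) _
      have i2 : 0 ≤ arank (tpow A 1) := arank_nonneg (d := 2) _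
      have i3 : 0 ≤ arank (tpow (idT : Tensor (ZMod p) 3 (Fin n)) 2) := arank_nonneg (d := 2) _
      rcases le_or_gt c 0 with hc0 | hc0
      · refine ⟨1, le_refl _, ?_⟩
        rw [pow_one]
        nlinarith
      · refine ⟨2, by norm_num, ?_⟩
        have h5 : c ^ 2 ≤ 1 := pow_le_one₀ hc0.le hc.le
        nlinarith

end Pool.Agent.Results.MP_a9d09b_co.ThreeTensorsAnalytic
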